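import Mathlib
import Pool.Agent.N449.SP.UnitNF

set_option autoImplicit false

/-!
# Sums of rational numbers in a set of bounded rank
-/

namespace Pool.Agent.U945.APP

open Finset

/-- the elements of the group generated by the numbers in a finite set -/
lemma mem_gen (S : Finset ℕ) (G : Subgroup ℚˣ)
    (hG : ∀ q ∈ S, q.Prime → ∃ u ∈ G, ((u : ℚˣ) : ℚ) = q) (n : ℕ) :
    n ≠ 0 → (∀ q : ℕ, q.Prime → q ∣ n → q ∈ S) → ∃ u ∈ G, ((u : ℚˣ) : ℚ) = n := by
  induction n using Nat.recOnMul with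
  | zero => intro h; exact absurd rfl h
  | one => intro _ _; exact ⟨1, one_mem _, by simp⟩
  | prime q hq => intro _ h; exact hG q (h q hq dvd_rfl) hq
  | mul a b iha ihb =>
    intro h0 h
    have ha : a ≠ 0 := left_ne_zero_of_mul h0
    have hb : b ≠ 0 := right_ne_zero_of_mul h0
    obtain ⟨u, hu, hu'⟩ := iha ha (fun q hq hd => h q hq (hd.mul_right b))
    obtain ⟨v, hv, hv'⟩ := ihb hb (fun q hq hd => h q hq (hd.mul_left a))
    exact ⟨u * v, mul_mem hu hv, by push_cast; rw [hu', hv']⟩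

/-- rational numbers all of whose primes are in a finite set satisfy the unit equation theorem -/
theorem finite_sums (Γ : Set ℚ) (h0 : (0 : ℚ) ∉ Γ)
    (hS : {q : ℕ | q.Prime ∧ ∃ x ∈ Γ, padicValRat q x ≠ 0}.Finite) (n : ℕ) :
    {x : Fin n → ℚ | (∀ i, x i ∈ Γ) ∧ ∑ i, x i = 1 ∧
      ∀ J : Finset (Fin n), J.Nonempty → ∑ i ∈ J, x i ≠ 0}.Finite := by
  classical
  set S : Finset ℕ := hS.toFinset with hSdef
  have hSm : ∀ q, q ∈ S ↔ q.Prime ∧ ∃ x ∈ Γ, padicValRat q x ≠ 0 := fun q => by
    rw [hSdef, Set.Finite.mem_toFinset]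
    rfl
  set T : Finset ℚˣ := S.attach.image (fun q : {x // x ∈ S} => Units.mk0 ((q.1 : ℕ) : ℚ)
    (by exact_mod_cast ((hSm q.1).1 q.2).1.ne_zero)) with hT
  set G : Subgroup ℚˣ := Subgroup.closure (T : Set ℚˣ) with hGdef
  have hGfg : G.FG := ⟨T, rfl⟩
  have hG : ∀ q ∈ S, q.Prime → ∃ u ∈ G, ((u : ℚˣ) : ℚ) = q := by
    intro q hq _
    refine ⟨Units.mk0 ((q : ℕ) : ℚ) (by exact_mod_cast ((hSm q).1 hq).1.ne_zero),
      Subgroup.subset_closure ?_, rfl⟩
    rw [hT, Finset.mem_coe, Finset.mem_image]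
    exact ⟨⟨q, hq⟩, Finset.mem_attach _ _, rfl⟩
  have hmem : ∀ x ∈ Γ, x ∈ Pool.Agent.N449.SP.Pm G := by
    intro x hx
    have hx0 : x ≠ 0 := fun h => h0 (h ▸ hx)
    have hnum : x.num.natAbs ≠ 0 := by
      rw [Int.natAbs_ne_zero]
      exact Rat.num_ne_zero.2 hx0
    have hcop : Nat.Coprime x.num.natAbs x.den := x.reduced
    have hvn : ∀ q : ℕ, q.Prime → padicValRat q x =
        (padicValNat q x.num.natAbs : ℤ) - padicValNat q x.den := by
      intro q hq
      rfl
    obtain ⟨u, hu, hu'⟩ := mem_gen S G hG x.num.natAbs hnum (fun q hq hd => by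
      have : Fact q.Prime := ⟨hq⟩
      rw [hSm]
      refine ⟨hq, x, hx, ?_⟩
      have nd : ¬ q ∣ x.den := fun h =>
        Nat.Prime.one_lt hq |>.ne' (Nat.dvd_one.1 (hcop ▸ Nat.dvd_gcd hd h))
      rw [hvn q hq, padicValNat.eq_zero_of_not_dvd nd]
      have h1 : 1 ≤ padicValNat q x.num.natAbs := one_le_padicValNat_of_dvd hnum hd
      intro h
      simp only [Nat.cast_zero, sub_zero, zero_sub, neg_eq_zero, Nat.cast_eq_zero] at h
      omega)
    obtain ⟨v, hv, hv'⟩ := mem_gen S G hG x.den x.den_nz (fun q hq hd => by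
      have : Fact q.Prime := ⟨hq⟩
      rw [hSm]
      refine ⟨hq, x, hx, ?_⟩
      have nd : ¬ q ∣ x.num.natAbs := fun h =>
        Nat.Prime.one_lt hq |>.ne' (Nat.dvd_one.1 (hcop ▸ Nat.dvd_gcd h hd))
      rw [hvn q hq, padicValNat.eq_zero_of_not_dvd nd]
      have h1 : 1 ≤ padicValNat q x.den := one_le_padicValNat_of_dvd x.den_nz hd
      intro h
      simp only [Nat.cast_zero, sub_zero, zero_sub, neg_eq_zero, Nat.cast_eq_zero] at h
      omega)
    refine ⟨u / v, div_mem hu hv, ?_⟩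
    have huv : (((u / v : ℚˣ)) : ℚ) = (x.num.natAbs : ℚ) / x.den := by
      rw [Units.val_div_eq_div_val, hu', hv']
    rw [huv]
    rcases Int.natAbs_eq x.num with h | h
    · left
      rw [← Int.cast_natCast (R := ℚ) x.num.natAbs, ← h]
      exact (Rat.num_div_den x).symm
    · right
      have h2 : (x.num.natAbs : ℚ) = -(x.num : ℚ) := by
        rw [← Int.cast_natCast (R := ℚ) x.num.natAbs, ← Int.cast_neg]
        congr 1
        omega
      rw [h2, neg_div, neg_neg]
      exact (Rat.num_div_den x).symm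
  obtain ⟨R, hR⟩ := Pool.Agent.N449.SP.ue_numberField ℚ G hGfg (n + 1)
  have h1mem : (-1 : ℚ) ∈ Pool.Agent.N449.SP.Pm G := ⟨1, one_mem _, Or.inr (by simp)⟩
  refine Set.Finite.subset (Set.Finite.pi' (fun _ : Fin n => (R.image (fun z => -z)).finite_toSet)) ?_
  rintro x ⟨hx, hsum, hnd⟩ i
  have key := hR (Fin.cons (-1) x) (fun j => by
    refine Fin.cases h1mem (fun j => ?_) j
    exact hmem _ (hx j)) (by
    rw [Fin.sum_univ_succ]
    simp only [Fin.cons_zero, Fin.cons_succ]
    rw [hsum]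
    norm_num) (by
    intro J hJ hJ0
    -- the part of `J` without `0`
    set J' : Finset (Fin n) := univ.filter (fun j => j.succ ∈ J) with hJ'
    have hsplit : ∑ j ∈ J, (Fin.cons (-1) x : Fin (n + 1) → ℚ) j =
        (if (0 : Fin (n + 1)) ∈ J then -1 else 0) + ∑ j ∈ J', x j := by
      rw [← Finset.sum_filter_add_sum_filter_not J (fun j => j = 0)]
      congr 1
      · by_cases hz : (0 : Fin (n + 1)) ∈ J
        · rw [if_pos hz, Finset.filter_eq' J 0, if_pos hz, Finset.sum_singleton]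
          rfl
        · rw [if_neg hz, Finset.filter_eq' J 0, if_neg hz, Finset.sum_empty]
      · symm
        refine Finset.sum_bij (fun j _ => j.succ) ?_ ?_ ?_ ?_
        · intro j hj
          rw [hJ', Finset.mem_filter] at hj
          rw [Finset.mem_filter]
          exact ⟨hj.2, Fin.succ_ne_zero j⟩
        · intro a _ b _ h
          exact Fin.succ_injective _ h
        · intro b hb
          rw [Finset.mem_filter] at hb
          obtain ⟨j, rfl⟩ := Fin.exists_succ_eq.2 hb.2
          exact ⟨j, by rw [hJ', Finset.mem_filter]; exact ⟨mem_univ _, hb.1⟩, rfl⟩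
        · intro j _
          rfl
    rw [hsplit] at hJ0
    by_cases hz : (0 : Fin (n + 1)) ∈ J
    · rw [if_pos hz] at hJ0
      have h1 : ∑ j ∈ J', x j = 1 := by linarith
      have h2 : ∑ j ∈ univ \ J', x j = 0 := by
        have := Finset.sum_sdiff (f := x) (Finset.subset_univ J')
        rw [h1, hsum] at this
        linarith
      have h3 : univ \ J' = ∅ := by
        by_contra hne
        exact hnd _ (Finset.nonempty_iff_ne_empty.2 hne) h2
      have h4 : J' = univ := by
        rw [Finset.sdiff_eq_empty_iff_subset] at h3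
        exact Finset.univ_subset_iff.1 h3
      rw [Finset.eq_univ_iff_forall]
      intro j
      refine Fin.cases hz (fun j => ?_) j
      have := Finset.mem_univ j
      rw [← h4, hJ', Finset.mem_filter] at this
      exact this.2
    · exfalso
      rw [if_neg hz, zero_add] at hJ0
      refine hnd J' ?_ hJ0
      obtain ⟨j, hj⟩ := hJ
      have hj0 : j ≠ 0 := fun h => hz (h ▸ hj)
      obtain ⟨k, rfl⟩ := Fin.exists_succ_eq.2 hj0
      exact ⟨k, by rw [hJ', Finset.mem_filter]; exact ⟨mem_univ _, hj⟩⟩) i.succ 0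
  simp only [Fin.cons_zero, Fin.cons_succ] at key
  rw [Finset.coe_image]
  exact ⟨_, key, by ring⟩

end Pool.Agent.U945.APP
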