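import Mathlib

set_option autoImplicit false

/-!
# Subsets of `ℚ ∖ {0, 1}` which are stable under `x ↦ 1 - x` and `x ↦ 1 / x`
-/

namespace Pool.Agent.U945.APP

/-- the orbit of `x` under `x ↦ 1 - x` and `x ↦ 1 / x` -/
def Orb (x : ℚ) : Set ℚ := {x, 1 - x, x⁻¹, (1 - x)⁻¹, 1 - x⁻¹, 1 - (1 - x)⁻¹}

theorem eq_orbits {E : Set ℚ} (h0 : (0 : ℚ) ∉ E) (h1 : (1 : ℚ) ∉ E) (hs : ∀ x ∈ E, 1 - x ∈ E)
    (hi : ∀ x ∈ E, x⁻¹ ∈ E) : E = {y | ∃ x ∈ E, 0 < x ∧ x ≤ 1 / 2 ∧ y ∈ Orb x} := by
  ext y
  constructor
  · intro hy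
    have hy0 : y ≠ 0 := fun h => h0 (h ▸ hy)
    have hy1 : y ≠ 1 := fun h => h1 (h ▸ hy)
    have a1 := hs y hy
    have a2 := hi y hy
    have a3 := hi _ a1
    have a4 := hs _ a2
    have a5 := hs _ a3
    rcases lt_or_gt_of_ne hy0 with h | h
    · -- y < 0
      have hp : 0 < 1 - y := by linarith
      by_cases h' : y < -1
      · refine ⟨(1 - y)⁻¹, a3, by positivity, ?_, ?_⟩
        · rw [one_div]
          exact inv_anti₀ (by norm_num) (by linarith)
        · right; right; right; right; left
          rw [inv_inv]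
          ring
      · have h3 : 1 / 2 ≤ (1 - y)⁻¹ := by
          rw [one_div]
          exact inv_anti₀ hp (by linarith)
        have h4 : (1 - y)⁻¹ < 1 := inv_lt_one_of_one_lt₀ (by linarith)
        refine ⟨1 - (1 - y)⁻¹, a5, by linarith, by linarith, ?_⟩
        right; right; right; right; right
        rw [sub_sub_cancel, inv_inv]
        exact (sub_sub_cancel 1 y).symm
    · by_cases c1 : y ≤ 1 / 2
      · exact ⟨y, hy, h, c1, Or.inl rfl⟩
      · by_cases c2 : y < 1
        · refine ⟨1 - y, a1, by linarith, by linarith, Or.inr (Or.inl ?_)⟩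
          exact (sub_sub_cancel 1 y).symm
        · have c3 : 1 < y := lt_of_le_of_ne (not_lt.1 c2) (Ne.symm hy1)
          by_cases c4 : y ≤ 2
          · have h3 : 1 / 2 ≤ y⁻¹ := by
              rw [one_div]
              exact inv_anti₀ h (by linarith)
            have h4 : y⁻¹ < 1 := inv_lt_one_of_one_lt₀ c3
            refine ⟨1 - y⁻¹, a4, by linarith, by linarith, ?_⟩
            right; right; right; left
            rw [sub_sub_cancel, inv_inv]
          · refine ⟨y⁻¹, a2, by positivity, ?_, ?_⟩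
            · rw [one_div]
              exact inv_anti₀ (by norm_num) (by linarith)
            · right; right; left
              rw [inv_inv]
  · rintro ⟨x, hx, -, -, h⟩
    have a1 := hs x hx
    have a2 := hi x hx
    have a3 := hi _ a1
    have a4 := hs _ a2
    have a5 := hs _ a3
    rcases h with rfl | rfl | rfl | rfl | rfl | rfl
    · exact hx
    · exact a1
    · exact a2
    · exact a3
    · exact a4
    · exact a5

lemma orb_half : Orb (1 / 2) = {1 / 2, 2, -1} := by
  ext y
  unfold Orb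
  simp only [Set.mem_insert_iff, Set.mem_singleton_iff]
  norm_num

/-- the sorted list of the nine numbers -/
lemma ncard_nine {x : ℚ} (h0 : 0 < x) (h1 : x < 1 / 2) :
    (Orb (1 / 2) ∪ Orb x).ncard = 9 ∧ (Orb x).ncard = 6 := by
  have hx1 : 0 < 1 - x := by linarith
  have e1 : 1 < (1 - x)⁻¹ := by
    rw [one_lt_inv₀ hx1]
    linarith
  have e2 : (1 - x)⁻¹ < 2 := by
    rw [inv_lt_comm₀ hx1 (by norm_num)]
    linarith
  have e3 : 2 < x⁻¹ := by
    rw [lt_inv_comm₀ (by norm_num) h0]
    linarith
  constructor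
  · have hm : StrictMono (![1 - x⁻¹, -1, 1 - (1 - x)⁻¹, x, 1 / 2, 1 - x, (1 - x)⁻¹, 2, x⁻¹] : Fin 9 → ℚ) := by
      rw [Fin.strictMono_iff_lt_succ]
      intro i
      fin_cases i
      · change 1 - x⁻¹ < -1
        linarith
      · change -1 < 1 - (1 - x)⁻¹
        linarith
      · change 1 - (1 - x)⁻¹ < x
        linarith
      · change x < 1 / 2
        linarith
      · change 1 / 2 < 1 - x
        linarith
      · change 1 - x < (1 - x)⁻¹
        linarith
      · change (1 - x)⁻¹ < 2
        linarith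
      · change 2 < x⁻¹
        linarith
    have he : Orb (1 / 2) ∪ Orb x =
        Set.range (![1 - x⁻¹, -1, 1 - (1 - x)⁻¹, x, 1 / 2, 1 - x, (1 - x)⁻¹, 2, x⁻¹] : Fin 9 → ℚ) := by
      rw [orb_half]
      ext y
      constructor
      · rintro ((rfl | rfl | rfl) | (rfl | rfl | rfl | rfl | rfl | rfl))
        · exact ⟨4, rfl⟩
        · exact ⟨7, rfl⟩
        · exact ⟨1, rfl⟩
        · exact ⟨3, rfl⟩
        · exact ⟨5, rfl⟩
        · exact ⟨8, rfl⟩
        · exact ⟨6, rfl⟩
        · exact ⟨0, rfl⟩
        · exact ⟨2, rfl⟩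
      · rintro ⟨i, rfl⟩
        fin_cases i
        · right; right; right; right; right; left; rfl
        · left; right; right; rfl
        · right; right; right; right; right; right; rfl
        · right; left; rfl
        · left; left; rfl
        · right; right; left; rfl
        · right; right; right; right; left; rfl
        · left; right; left; rfl
        · right; right; right; left; rfl
    rw [he, ← Set.image_univ, Set.ncard_image_of_injective _ hm.injective, Set.ncard_univ,
      Nat.card_eq_fintype_card, Fintype.card_fin]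
  · have hm : StrictMono (![1 - x⁻¹, 1 - (1 - x)⁻¹, x, 1 - x, (1 - x)⁻¹, x⁻¹] : Fin 6 → ℚ) := by
      rw [Fin.strictMono_iff_lt_succ]
      intro i
      fin_cases i
      · change 1 - x⁻¹ < 1 - (1 - x)⁻¹
        linarith
      · change 1 - (1 - x)⁻¹ < x
        linarith
      · change x < 1 - x
        linarith
      · change 1 - x < (1 - x)⁻¹
        linarith
      · change (1 - x)⁻¹ < x⁻¹
        linarith
    have he : Orb x =
        Set.range (![1 - x⁻¹, 1 - (1 - x)⁻¹, x, 1 - x, (1 - x)⁻¹, x⁻¹] : Fin 6 → ℚ) := by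
      ext y
      constructor
      · rintro (rfl | rfl | rfl | rfl | rfl | rfl)
        · exact ⟨2, rfl⟩
        · exact ⟨3, rfl⟩
        · exact ⟨5, rfl⟩
        · exact ⟨4, rfl⟩
        · exact ⟨0, rfl⟩
        · exact ⟨1, rfl⟩
      · rintro ⟨i, rfl⟩
        fin_cases i
        · right; right; right; right; left; rfl
        · right; right; right; right; right; rfl
        · left; rfl
        · right; left; rfl
        · right; right; right; left; rfl
        · right; right; left; rfl
    rw [he, ← Set.image_univ, Set.ncard_image_of_injective _ hm.injective, Set.ncard_univ,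
      Nat.card_eq_fintype_card, Fintype.card_fin]

lemma ncard_half : (Orb (1 / 2)).ncard = 3 := by
  rw [orb_half]
  have : ({1 / 2, 2, -1} : Set ℚ) = (({1 / 2, 2, -1} : Finset ℚ) : Set ℚ) := by
    simp
  rw [this, Set.ncard_coe_finset]
  decide +kernel

lemma ncard_all : (Orb (1 / 2) ∪ Orb (1 / 3) ∪ Orb (1 / 4) ∪ Orb (1 / 9)).ncard = 21 := by
  have : (Orb (1 / 2) ∪ Orb (1 / 3) ∪ Orb (1 / 4) ∪ Orb (1 / 9)) =
      ((({1 / 2, 2, -1} ∪ {1 / 3, 2 / 3, 3, 3 / 2, -2, -1 / 2} ∪ {1 / 4, 3 / 4, 4, 4 / 3, -3, -1 / 3} ∪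
        {1 / 9, 8 / 9, 9, 9 / 8, -8, -1 / 8} : Finset ℚ)) : Set ℚ) := by
    rw [orb_half]
    ext y
    unfold Orb
    simp only [Set.mem_union, Set.mem_insert_iff, Set.mem_singleton_iff, Finset.coe_union,
      Finset.coe_insert, Finset.coe_singleton]
    norm_num
  rw [this, Set.ncard_coe_finset]
  decide +kernel

end Pool.Agent.U945.APP
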