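import Pool.Agent.TH293.APP.Main
import Pool.Agent.U945.AP.Gen
import Pool.Agent.U945.APP.Orb
import Pool.Agent.U945.APP.Fin

set_option autoImplicit false

/-!
# Additive relations and the `p`-adic four exponentials conjecture
-/

namespace Pool.Agent.U945.APP

open Finset
open Pool.Agent.TH293.AP (Dep)
open Pool.Agent.TH293.APP (SP dichotomy dep_of lp_mul lp_zpow)
open Pool.Agent.W254.PA (LtE logs)
open Pool.Agent.W245.PB (IsIwasawaLog)

variable {p : ℕ} [hp : Fact p.Prime] {L : PadicAlgCl p → PadicAlgCl p} (hL : IsIwasawaLog p L)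

include hL in
lemma L_neg_one : L (-1) = 0 := by
  have h := hL.mul (-1) (-1) (by norm_num) (by norm_num)
  rw [neg_mul_neg, one_mul, hL.one] at h
  have h2 : (2 : PadicAlgCl p) * L (-1) = 0 := by rw [two_mul]; exact h.symm
  exact (mul_eq_zero.1 h2).resolve_left (by norm_num)

include hL in
lemma L_neg (x : ℚ) (hx : x ≠ 0) : L ((-x : ℚ) : PadicAlgCl p) = L (x : PadicAlgCl p) := by
  have h : (-x : ℚ) = (-1) * x := by ring
  rw [h, lp_mul hL (by norm_num) hx]
  push_cast
  rw [L_neg_one hL, zero_add]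

include hL in
lemma L_inv (x : ℚ) (hx : x ≠ 0) : L ((x⁻¹ : ℚ) : PadicAlgCl p) = -L (x : PadicAlgCl p) := by
  have h := lp_zpow hL hx (-1)
  rw [zpow_neg_one] at h
  rw [h]
  push_cast
  ring

/-- the additive pairs, with signs -/
def EP (L : PadicAlgCl p → PadicAlgCl p) (V : Set (PadicAlgCl p)) (t : PadicAlgCl p) : Set ℚ :=
  {x : ℚ | x ≠ 0 ∧ x ≠ 1 ∧ padicValRat p x = 0 ∧ padicValRat p (1 - x) = 0 ∧
    t * L (x : PadicAlgCl p) ∈ V ∧ t * L ((1 - x : ℚ) : PadicAlgCl p) ∈ V}

lemma EP_sub {V : Set (PadicAlgCl p)} {t : PadicAlgCl p} {x : ℚ} (hx : x ∈ EP L V t) :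
    1 - x ∈ EP L V t := by
  obtain ⟨h0, h1, h2, h3, h4, h5⟩ := hx
  refine ⟨sub_ne_zero.2 (Ne.symm h1), fun h => h0 (by linarith), h3, ?_, h5, ?_⟩
  · rw [sub_sub_cancel]
    exact h2
  · rw [sub_sub_cancel]
    exact h4

include hL in
lemma EP_inv {V : Submodule ℚ (PadicAlgCl p)} {t : PadicAlgCl p} {x : ℚ}
    (hx : x ∈ EP L (V : Set (PadicAlgCl p)) t) : x⁻¹ ∈ EP L (V : Set (PadicAlgCl p)) t := by
  obtain ⟨h0, h1, h2, h3, h4, h5⟩ := hx
  have h1' : 1 - x ≠ 0 := sub_ne_zero.2 (Ne.symm h1)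
  have e : 1 - x⁻¹ = -(1 - x) * x⁻¹ := by
    field_simp
    ring
  refine ⟨inv_ne_zero h0, fun h => h1 (inv_eq_one.1 h), ?_, ?_, ?_, ?_⟩
  · rw [padicValRat.inv, h2, neg_zero]
  · rw [e, padicValRat.mul (neg_ne_zero.2 h1') (inv_ne_zero h0), padicValRat.neg, padicValRat.inv,
      h2, h3, neg_zero, add_zero]
  · rw [L_inv hL x h0, mul_neg]
    exact V.neg_mem h4
  · rw [e, lp_mul hL (neg_ne_zero.2 h1') (inv_ne_zero h0), L_neg hL _ h1', L_inv hL x h0, mul_add,
      mul_neg]
    exact V.add_mem h5 (V.neg_mem h4)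

/-- the five cases -/
def Five (E : Set ℚ) : Prop :=
  E = ∅ ∨ E = Orb (1 / 2) ∨ (∃ x : ℚ, 0 < x ∧ x < 1 / 2 ∧ E = Orb x) ∨
    (∃ x : ℚ, ∃ k : ℕ, 0 < x ∧ x < 1 / 2 ∧ (x = 1 / 2 ^ k ∨ x = 1 / (2 ^ k + 1)) ∧
      E = Orb (1 / 2) ∪ Orb x) ∨
    E = Orb (1 / 2) ∪ Orb (1 / 3) ∪ Orb (1 / 4) ∪ Orb (1 / 9)

theorem five_card {E : Set ℚ} (h : Five E) :
    E.Finite ∧ (E.ncard = 0 ∨ E.ncard = 3 ∨ E.ncard = 6 ∨ E.ncard = 9 ∨ E.ncard = 21) := by
  have ho : ∀ x, (Orb x).Finite := fun x => by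
    unfold Orb
    exact Set.toFinite _
  rcases h with rfl | rfl | ⟨x, h0, h1, rfl⟩ | ⟨x, k, h0, h1, -, rfl⟩ | rfl
  · exact ⟨Set.finite_empty, Or.inl (Set.ncard_empty _)⟩
  · exact ⟨ho _, Or.inr (Or.inl ncard_half)⟩
  · exact ⟨ho _, Or.inr (Or.inr (Or.inl (ncard_nine h0 h1).2))⟩
  · exact ⟨(ho _).union (ho _), Or.inr (Or.inr (Or.inr (Or.inl (ncard_nine h0 h1).1)))⟩
  · exact ⟨(((ho _).union (ho _)).union (ho _)).union (ho _),
      Or.inr (Or.inr (Or.inr (Or.inr ncard_all)))⟩

include hL in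
theorem five {t : PadicAlgCl p} (ht : Transcendental ℚ t) (V : Submodule ℚ (PadicAlgCl p))
    (hV : ∀ z ∈ V, z ∈ LtE (logs L)) : Five (EP L (V : Set (PadicAlgCl p)) t) := by
  set E := EP L (V : Set (PadicAlgCl p)) t with hE
  have horb := eq_orbits (E := E) (fun h => h.1 rfl) (fun h => h.2.1 rfl) (fun x hx => EP_sub hx)
    (fun x hx => EP_inv hL hx)
  -- the points in `(0, 1/2)`
  have hSP : ∀ x, x ∈ SP L (V : Set (PadicAlgCl p)) t ↔ x ∈ E ∧ 0 < x ∧ x < 1 / 2 := by
    intro x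
    constructor
    · rintro ⟨h0, h1, h2, h3, h4, h5⟩
      exact ⟨⟨h0.ne', by linarith, h2, h3, h4, h5⟩, h0, h1⟩
    · rintro ⟨⟨-, -, h2, h3, h4, h5⟩, h0, h1⟩
      exact ⟨h0, h1, h2, h3, h4, h5⟩
  have hhalf : (1 / 2 : ℚ) ∈ E → padicValRat p 2 = 0 ∧ t * L ((2 : ℚ) : PadicAlgCl p) ∈ V := by
    rintro ⟨-, -, h2, -, h4, -⟩
    rw [one_div, padicValRat.inv] at h2
    rw [one_div, L_inv hL 2 (by norm_num), mul_neg] at h4
    exact ⟨by linarith, by simpa using V.neg_mem h4⟩
  -- the union over the points of a set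
  have hun : ∀ A : Set ℚ, (∀ x, (x ∈ E ∧ 0 < x ∧ x ≤ 1 / 2) ↔ x ∈ A) →
      E = ⋃ x ∈ A, Orb x := by
    intro A hA
    rw [horb]
    ext y
    simp only [Set.mem_iUnion, Set.mem_ofPred_eq]
    constructor
    · rintro ⟨x, hx, h0, h1, hy⟩
      exact ⟨x, (hA x).1 ⟨hx, h0, h1⟩, hy⟩
    · rintro ⟨x, hx, hy⟩
      obtain ⟨h1, h2, h3⟩ := (hA x).2 hx
      exact ⟨x, h1, h2, h3, hy⟩
  rcases dichotomy hL ht V hV with hsub | hspec
  · by_cases hh : (1 / 2 : ℚ) ∈ E
    · obtain ⟨v2, m2⟩ := hhalf hh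
      rcases hsub.eq_empty_or_singleton with hemp | ⟨x, hx⟩
      · right; left
        have := hun {1 / 2} (fun x => by
          rw [Set.mem_singleton_iff]
          constructor
          · rintro ⟨h1, h2, h3⟩
            rcases h3.lt_or_eq with h | h
            · exfalso
              have : x ∈ SP L (V : Set (PadicAlgCl p)) t := (hSP x).2 ⟨h1, h2, h⟩
              rw [hemp] at this
              exact this
            · exact h
          · rintro rfl
            exact ⟨hh, by norm_num, le_rfl⟩)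
        rw [this, Set.biUnion_singleton]
      · right; right; right; left
        have hxm : x ∈ SP L (V : Set (PadicAlgCl p)) t := by rw [hx]; exact Set.mem_singleton x
        obtain ⟨h0, h1, h2, h3, h4, h5⟩ := hxm
        obtain ⟨k, hk⟩ := Pool.Agent.U945.AP.with_two h0 h1
          (dep_of hL ht h0 (by linarith) (by norm_num : (0 : ℚ) < 2) h2 h3 v2 (hV _ h4) (hV _ h5)
            (hV _ m2))
        refine ⟨x, k, h0, h1, hk, ?_⟩
        have := hun {1 / 2, x} (fun y => by
          rw [Set.mem_insert_iff, Set.mem_singleton_iff]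
          constructor
          · rintro ⟨h1, h2, h3⟩
            rcases h3.lt_or_eq with h | h
            · right
              have : y ∈ SP L (V : Set (PadicAlgCl p)) t := (hSP y).2 ⟨h1, h2, h⟩
              rw [hx] at this
              exact this
            · exact Or.inl h
          · rintro (rfl | rfl)
            · exact ⟨hh, by norm_num, le_rfl⟩
            · exact ⟨((hSP y).1 ⟨h0, h1, h2, h3, h4, h5⟩).1, h0, h1.le⟩)
        rw [this, Set.biUnion_insert, Set.biUnion_singleton]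
    · rcases hsub.eq_empty_or_singleton with hemp | ⟨x, hx⟩
      · left
        have := hun ∅ (fun x => by
          constructor
          · rintro ⟨h1, h2, h3⟩
            rcases h3.lt_or_eq with h | h
            · have : x ∈ SP L (V : Set (PadicAlgCl p)) t := (hSP x).2 ⟨h1, h2, h⟩
              rw [hemp] at this
              exact this
            · exact absurd (h ▸ h1) hh
          · intro h
            exact absurd h (Set.notMem_empty x))
        rw [this, Set.biUnion_empty]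
      · right; right; left
        have hxm : x ∈ SP L (V : Set (PadicAlgCl p)) t := by rw [hx]; exact Set.mem_singleton x
        obtain ⟨h0, h1, h2, h3, h4, h5⟩ := hxm
        refine ⟨x, h0, h1, ?_⟩
        have := hun {x} (fun y => by
          rw [Set.mem_singleton_iff]
          constructor
          · rintro ⟨h1, h2, h3⟩
            rcases h3.lt_or_eq with h | h
            · have : y ∈ SP L (V : Set (PadicAlgCl p)) t := (hSP y).2 ⟨h1, h2, h⟩
              rw [hx] at this
              exact this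
            · exact absurd (h ▸ h1) hh
          · rintro rfl
            exact ⟨((hSP y).1 ⟨h0, h1, h2, h3, h4, h5⟩).1, h0, h1.le⟩)
        rw [this, Set.biUnion_singleton]
  · right; right; right; right
    have h3m : (1 / 3 : ℚ) ∈ SP L (V : Set (PadicAlgCl p)) t := by rw [hspec]; simp
    have h4m : (1 / 4 : ℚ) ∈ SP L (V : Set (PadicAlgCl p)) t := by rw [hspec]; simp
    have h9m : (1 / 9 : ℚ) ∈ SP L (V : Set (PadicAlgCl p)) t := by rw [hspec]; simp
    have h2m : (1 / 2 : ℚ) ∈ E := by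
      obtain ⟨-, -, u, v, a, b⟩ := h3m
      have e : (1 - 1 / 3 : ℚ) = 2 * (1 / 3) := by norm_num
      rw [e, padicValRat.mul (by norm_num) (by norm_num), u, add_zero] at v
      rw [e, lp_mul hL (by norm_num) (by norm_num), mul_add] at b
      have c : t * L ((2 : ℚ) : PadicAlgCl p) ∈ V := by
        have := V.sub_mem b a
        rwa [add_sub_cancel_right] at this
      refine ⟨by norm_num, by norm_num, ?_, ?_, ?_, ?_⟩
      · rw [one_div, padicValRat.inv, v, neg_zero]
      · rw [show (1 - 1 / 2 : ℚ) = 2⁻¹ by norm_num, padicValRat.inv, v, neg_zero]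
      · rw [one_div, L_inv hL 2 (by norm_num), mul_neg]
        exact V.neg_mem c
      · rw [show (1 - 1 / 2 : ℚ) = 2⁻¹ by norm_num, L_inv hL 2 (by norm_num), mul_neg]
        exact V.neg_mem c
    have := hun {1 / 2, 1 / 3, 1 / 4, 1 / 9} (fun y => by
      constructor
      · rintro ⟨h1, h2, h3⟩
        rcases h3.lt_or_eq with h | h
        · right
          have : y ∈ SP L (V : Set (PadicAlgCl p)) t := (hSP y).2 ⟨h1, h2, h⟩
          rw [hspec] at this
          exact this
        · exact Or.inl h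
      · rintro (rfl | rfl | rfl | rfl)
        · exact ⟨h2m, by norm_num, le_rfl⟩
        · exact ⟨((hSP _).1 h3m).1, by norm_num, by norm_num⟩
        · exact ⟨((hSP _).1 h4m).1, by norm_num, by norm_num⟩
        · exact ⟨((hSP _).1 h9m).1, by norm_num, by norm_num⟩)
    rw [this, Set.biUnion_insert, Set.biUnion_insert, Set.biUnion_insert, Set.biUnion_singleton,
      Set.union_assoc, Set.union_assoc]

/-! ### Bounded rank -/

include hL in
/-- only finitely many primes -/
theorem primes_finite {t : PadicAlgCl p} (ht : Transcendental ℚ t) (V : Submodule ℚ (PadicAlgCl p))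
    (hV : ∀ z ∈ V, z ∈ LtE (logs L)) :
    {q : ℕ | q.Prime ∧ ∃ x ∈ {x : ℚ | x ≠ 0 ∧ t * L (x : PadicAlgCl p) ∈ V},
      padicValRat q x ≠ 0}.Finite := by
  -- the primes in one number
  have hsupp : ∀ x : ℚ, x ≠ 0 → {q : ℕ | q.Prime ∧ padicValRat q x ≠ 0}.Finite := by
    intro x hx
    refine ((x.num.natAbs.primeFactors ∪ x.den.primeFactors).finite_toSet).subset ?_
    rintro q ⟨hq, hv⟩
    rw [Finset.mem_coe, Finset.mem_union, Nat.mem_primeFactors, Nat.mem_primeFactors]
    by_contra hcon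
    push Not at hcon
    apply hv
    have hn : ¬ q ∣ x.num.natAbs := fun h => by
      have := hcon.1 hq h
      rw [Int.natAbs_eq_zero, Rat.num_eq_zero] at this
      exact hx this
    have hd : ¬ q ∣ x.den := fun h => by
      have := hcon.2 hq h
      exact x.den_nz this
    have : padicValRat q x = (padicValNat q x.num.natAbs : ℤ) - padicValNat q x.den := rfl
    rw [this, padicValNat.eq_zero_of_not_dvd hn, padicValNat.eq_zero_of_not_dvd hd]
    simp
  -- normalisation
  have hnorm : ∀ q : ℕ, q.Prime → q ≠ p →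
      (∃ x ∈ {x : ℚ | x ≠ 0 ∧ t * L (x : PadicAlgCl p) ∈ V}, padicValRat q x ≠ 0) →
      ∃ y : ℚ, 0 < y ∧ padicValRat p y = 0 ∧ t * L (y : PadicAlgCl p) ∈ V ∧ padicValRat q y ≠ 0 := by
    rintro q hq hqp ⟨x, ⟨hx0, hx⟩, hv⟩
    have : Fact q.Prime := ⟨hq⟩
    have hp0 : (p : ℚ) ≠ 0 := by exact_mod_cast hp.out.ne_zero
    have habs : |x| ≠ 0 := abs_ne_zero.2 hx0
    have hLabs : L ((|x| : ℚ) : PadicAlgCl p) = L (x : PadicAlgCl p) := by
      rcases abs_choice x with h | h
      · rw [h]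
      · rw [h, L_neg hL x hx0]
    have hvabs : ∀ r : ℕ, padicValRat r |x| = padicValRat r x := by
      intro r
      rcases abs_choice x with h | h
      · rw [h]
      · rw [h, padicValRat.neg]
    refine ⟨|x| * (p : ℚ) ^ (-padicValRat p x), ?_, ?_, ?_, ?_⟩
    · have : (0 : ℚ) < p := by exact_mod_cast hp.out.pos
      positivity
    · rw [padicValRat.mul habs (zpow_ne_zero _ hp0), padicValRat.zpow, hvabs,
        padicValRat.self hp.out.one_lt]
      ring
    · rw [lp_mul hL habs (zpow_ne_zero _ hp0), lp_zpow hL hp0, hLabs]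
      have h1 : L (((p : ℕ) : ℚ) : PadicAlgCl p) = 0 := by
        rw [Rat.cast_natCast]
        exact hL.prime
      rw [h1, mul_zero, add_zero]
      exact hx
    · rw [padicValRat.mul habs (zpow_ne_zero _ hp0), padicValRat.zpow, hvabs]
      have h1 : padicValRat q ((p : ℕ) : ℚ) = 0 := by
        rw [padicValRat.of_nat]
        have : ¬ q ∣ p := fun h => hqp ((Nat.prime_dvd_prime_iff_eq hq hp.out).1 h)
        rw [padicValNat.eq_zero_of_not_dvd this]
        rfl
      rw [h1, mul_zero, add_zero]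
      exact hv
  by_contra hinf
  have hinf' : {q : ℕ | q.Prime ∧ ∃ x ∈ {x : ℚ | x ≠ 0 ∧ t * L (x : PadicAlgCl p) ∈ V},
      padicValRat q x ≠ 0}.Infinite := hinf
  obtain ⟨q1, ⟨hq1, hx1⟩, hn1⟩ := (hinf'.sdiff (Set.finite_singleton p)).nonempty
  obtain ⟨y1, hy1, u1, m1, v1⟩ := hnorm q1 hq1 hn1 hx1
  obtain ⟨q2, ⟨hq2, hx2⟩, hn2⟩ := (hinf'.sdiff ((Set.finite_singleton p).union
    (hsupp y1 hy1.ne'))).nonempty
  obtain ⟨y2, hy2, u2, m2, v2⟩ := hnorm q2 hq2 (fun h => hn2 (Or.inl h)) hx2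
  obtain ⟨q3, ⟨hq3, hx3⟩, hn3⟩ := (hinf'.sdiff (((Set.finite_singleton p).union
    (hsupp y1 hy1.ne')).union (hsupp y2 hy2.ne'))).nonempty
  obtain ⟨y3, hy3, u3, m3, v3⟩ := hnorm q3 hq3 (fun h => hn3 (Or.inl (Or.inl h))) hx3
  have a21 : padicValRat q2 y1 = 0 := by
    by_contra h
    exact hn2 (Or.inr ⟨hq2, h⟩)
  have a31 : padicValRat q3 y1 = 0 := by
    by_contra h
    exact hn3 (Or.inl (Or.inr ⟨hq3, h⟩))
  have a32 : padicValRat q3 y2 = 0 := by
    by_contra h
    exact hn3 (Or.inr ⟨hq3, h⟩)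
  obtain ⟨k, l, m, hne, h⟩ := dep_of hL ht hy1 hy2 hy3 u1 u2 u3 (hV _ m1) (hV _ m2) (hV _ m3)
  have hval : ∀ q : ℕ, q.Prime → k * padicValRat q y1 + l * padicValRat q y2 +
      m * padicValRat q y3 = 0 := by
    intro q hq
    have : Fact q.Prime := ⟨hq⟩
    have h2 := congrArg (padicValRat q) h
    have := hy1.ne'
    have := hy2.ne'
    have := hy3.ne'
    rw [padicValRat.mul (by positivity) (by positivity), padicValRat.mul (by positivity)
      (by positivity), padicValRat.zpow, padicValRat.zpow, padicValRat.zpow,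
      padicValRat.one] at h2
    exact h2
  have hm : m = 0 := by
    have := hval q3 hq3
    rw [a31, a32, mul_zero, mul_zero, zero_add, zero_add] at this
    exact (mul_eq_zero.1 this).resolve_right v3
  have hl : l = 0 := by
    have := hval q2 hq2
    rw [a21, mul_zero, zero_add, hm, zero_mul, add_zero] at this
    exact (mul_eq_zero.1 this).resolve_right v2
  have hk : k = 0 := by
    have := hval q1 hq1
    rw [hm, hl, zero_mul, zero_mul, add_zero, add_zero] at this
    exact (mul_eq_zero.1 this).resolve_right v1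
  rcases hne with h | h | h
  · exact h hk
  · exact h hl
  · exact h hm

include hL in
theorem sums {t : PadicAlgCl p} (ht : Transcendental ℚ t) (V : Submodule ℚ (PadicAlgCl p))
    (hV : ∀ z ∈ V, z ∈ LtE (logs L)) (n : ℕ) :
    {x : Fin n → ℚ | (∀ i, x i ≠ 0 ∧ t * L (x i : PadicAlgCl p) ∈ V) ∧ ∑ i, x i = 1 ∧
      ∀ J : Finset (Fin n), J.Nonempty → ∑ i ∈ J, x i ≠ 0}.Finite :=
  finite_sums {x : ℚ | x ≠ 0 ∧ t * L (x : PadicAlgCl p) ∈ V} (fun h => h.1 rfl)
    (primes_finite hL ht V hV) n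

end Pool.Agent.U945.APP
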